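import Pool.Agent.Helper14.T3.StL
import Pool.Agent.Helper28.T3E.StF
import Pool.Agent.Helper78.WK3.StA
import Pool.Agent.Helper76.TG.Defs

/-!
# Project T3K, part A: THEOREM A for the twisted path, level `3^m`

Both halves at once: `D` is prime to `3`, `χ(3) = jacobiSym 3 D = -1`, `s = χ(-1) = ±1`, `kw s m = s (-1)^m`; the twisted path (`evT D`, `evTb D 1` of project T3) sees the
symbols with `W = -kw s m`, `* = s`. Odd half: `Okt D`, `s = -1`, `dd = dt3`. Even half (project T3E): `OkE D`, `s = 1`, `dd = de3`. Models: the modules of project WK3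
(`Pool/Agent/Helper78/WK3/StA.lean`) with the same name without the `t`. `u = act 3 0 0 1`, `W = act 0 (-1) (3^m) 0`, `W' = act 0 (-1) (3^(m-1)) 0`, `* = act (-1) 0 0 1`.
-/

set_option autoImplicit false

namespace Pool.Agent.Helper14.TK

open Pool.Agent.Helper14.CV Pool.Agent.Helper14.W3 Pool.Agent.Helper78.W3
open Pool.Agent.Helper14.T3 Pool.Agent.Helper28.T3E
open Pool.Agent.Helper14.TT (eXb)
open Pool.Agent.Helper28.WK (SymP Tw Ok UIp)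
open Pool.Agent.Helper78.WK3 (Lft3)
open Pool.Agent.Helper76.TG (Wzt TAt)

/-- The root number at level `3^n` seen by the twisted path. -/
def kw (s : ℤ) (n : ℕ) : ℤ := s * (-1) ^ n

/-- `∑_{m ≤ n} dd m`. -/
def DDg (dd : ℕ → ℕ) (n : ℕ) : ℕ := ∑ m ∈ Finset.range (n + 1), dd m

/-- Integral families of symbols whose matrix of twisted values has determinant prime to three. -/
def Fam (D : ℕ) (dd : ℕ → ℕ) : Prop := ∀ n : ℕ, 3 ≤ n →
  ∃ (G : Fin (DDg dd n) → ℤ → ℤ → ℤ) (ij : Fin (DDg dd n) → ℕ × ℕ), (∀ k, Sym3 0 n (G k)) ∧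
    ¬ (3 : ℤ) ∣ Matrix.det (Matrix.of fun k l => evTb D 1 (G k) (ij l).1 (ij l).2)

/-- One half of the theory: the facts on the conductor `D`, the sign `s` and the dimensions `dd`. -/
structure Hf (D : ℕ) (s : ℤ) (dd : ℕ → ℕ) : Prop where
  d0 : D ≠ 0
  sg : s = 1 ∨ s = -1
  c3 : jacobiSym 3 D = -1
  cm : jacobiSym (-1) D = s
  dd2 : dd 0 = 0 ∧ dd 1 = 0 ∧ dd 2 = 0
  sgn : ∀ (n : ℕ) (G : ℤ → ℤ → ℂ), 2 ≤ n → Sym3 0 n G →
    evT D (act 0 (-1) (3 ^ n) 0 G) = -(kw s n • evT D G) ∧ evT D (act (-1) 0 0 1 G) = s • evT D G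
  dec : ∀ (n : ℕ) (G : ℤ → ℤ → ℂ), 3 ≤ n → Sym3 0 n G →
    ∃ G0 G1 : ℤ → ℤ → ℂ, Sym3 0 (n - 1) G0 ∧ NewSym3S n (kw s n) s G1 ∧
      evT D G = evT D G0 + evT D G1
  bas : ∀ G : ℤ → ℤ → ℂ, Sym3 0 2 G → evT D G = 0
  ub : ∀ n : ℕ, 3 ≤ n → ∃ Θ : NSS3 n (kw s n) s →ₗ[ℂ] (Fin (dd n) → ℂ),
    ∀ G : NSS3 n (kw s n) s, Θ G = 0 → EqC (G : ℤ → ℤ → ℂ) 0
  fam : Fam D dd
  b9 : ∀ K : ℤ → ℤ → ℂ, Sym3 0 2 K → EqC (act 0 (-1) (3 ^ 2) 0 K) (-(kw s 2 • K)) →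
    EqC (act (-1) 0 0 1 K) (s • K) →
    ∃ ψ : ℤ → ℤ → ℂ, Sym3 0 1 ψ ∧ EqC (-act 3 0 0 1 ψ - ψ) K

/-- BASO. Integral family, odd half. Proof: exactly the proof of LB3OF (Pool/Agent/Helper7/T3/M_LB3of.lean) before the passage to complex numbers, cf. Pool/Agent/Helper98/WK3/M_Bas3.lean: `n = 2k`: `(r,s) = (k-1,k-1)` (`k ≥ 2`), `n = 2k+1`: `(r,s) = (k,k-1)` (`k ≥ 1`); TRI3, LIF3; transport of an integral symbol
`G` of level `(r+1, s+1)` to level `(0, r+s+2)` by `G0 (p,q) = G (3^(r+1) p, q)` with `evTb D 1 G0 = evTb D (3^(r+1)) G` (model: Pool/Agent/Helper8/T3/M_Unb3.lean, over `ℤ` instead of `ℂ`); the matrix modulo 3 is triangular. -/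
def StBASO : Prop := Tri3 → Lif3 → Cnt3 → ∀ D : ℕ, Okt D → Fam D dt3

/-- BASE. Integral family, even half. The same with `StTR`, `StLI`, `StCNTE` (Pool/Agent/Helper2/T3E/M_LBEOF.lean); `n = 3`: `DDg de3 3 = 0`, empty family, determinant `1`. -/
def StBASE : Prop := StTR → StLI → StCNTE → ∀ D : ℕ, OkE D → Fam D de3

/-- B9O. Level 9, odd half: a symbol `K` with `K∘W ≈ K`, `K∘* ≈ -K` is constant. Proof. As in BAST3 (module Pool/Agent/Helper61/T3/M_Bast3.lean): a symbol of level `9` is determined up to a constant by its values at the four cusps `(1,0), (0,1), (1,3), (-1,3)`: if these are equal it is constant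
(on the fixed vectors of the parabolic elements there is no constant). With `K(1,0) = 0` and the constants of the two relations: `K(-1,0) = K(1,0)` gives constant `0` for `*`, so `K(0,1) = -K(0,1) = 0` and `K(-1,3) = -K(1,3)`; `W`: `(1,0) ↦ (0,9)`, so constant `0`; `(1,3) ↦ (-3,9) = 3 (-1,3)`: `K(-1,3) = K(1,3)`. -/
def StB9O : Prop := ∀ K : ℤ → ℤ → ℂ, Sym3 0 2 K → EqC (act 0 (-1) (3 ^ 2) 0 K) K →
  EqC (act (-1) 0 0 1 K) (-K) → EqC K 0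

/-- B9E. Level 9, even half: `K∘W ≈ -K`, `K∘* ≈ K`. Proof. With `K(1,0) = t`, after subtracting a constant `K(1,3) = K(-1,3) = 0` (`*`) and `K(0,1) = -t` (`W`: `K(0,1) = -K(1,0) + c`, `K(-1,3) = -K(1,3) + c`). Let `ψ(p,q) = -t/2` if `3 ∣ q/g`, `t/2` otherwise (`g = gcd(p,q)`; at the origin any value): invariant under `Γ₀(3)`, homogeneous.
`-ψ(3p,q) - ψ(p,q)` has the same values at the four cusps as `K` (up to a constant), so `K` is it up to a constant, as in B9O. (`ψ = -t/2 + t•(indicator)`.) -/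
def StB9E : Prop := ∀ K : ℤ → ℤ → ℂ, Sym3 0 2 K → EqC (act 0 (-1) (3 ^ 2) 0 K) (-K) →
  EqC (act (-1) 0 0 1 K) K → ∃ ψ : ℤ → ℤ → ℂ, Sym3 0 1 ψ ∧ EqC (-act 3 0 0 1 ψ - ψ) K

/-- The content of DIMT. -/
def DimT : Prop := ∀ (D : ℕ) (s : ℤ) (dd : ℕ → ℕ), Hf D s dd →
  ∀ (m : ℕ) (G : Fin (DDg dd m) → (ℤ → ℤ → ℂ)), 3 ≤ m →
  (∀ k, Sym3 0 m (G k)) → LinearIndependent ℂ (fun k => evT D (G k)) →
  ∀ H : ℤ → ℤ → ℂ, Sym3 0 m H → evT D H ∈ Submodule.span ℂ (Set.range fun k => evT D (G k))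

/-- DIMT. `V m = (XS3 m).map (evT D)` is finite dimensional of dimension at most `DDg dd m` (`dec`, `bas`, `ub`, as `V_bound` in Pool/Agent/Helper2/W3/M_CoreOf.lean or in Pool/Agent/Helper88/T3/M_CoreT3of.lean); the span of the family is contained in it and has dimension `DDg dd m`. Model: Pool/Agent/Helper2/WK3/M_Dim3.lean. -/
def StDIMT : Prop := DimT

/-- The content of NEXT. -/
def NexT : Prop := ∀ (D : ℕ) (s : ℤ) (dd : ℕ → ℕ), Hf D s dd → ∀ (m : ℕ) (G0 G1 : ℤ → ℤ → ℂ), 3 ≤ m →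
  Sym3 0 (m - 1) G0 → NewSym3S m (kw s m) s G1 → evT D G0 + evT D G1 = 0 → EqC G1 0

/-- NEXT. The old and the new part are independent. Model: Pool/Agent/Helper2/WK3/M_Nex3.lean. The lower bound `DDg dd m ≤ finrank (V m)` from `fam` (its complexification: `evT D` of the complex symbols is `evTb D 1`, see `Unb3` with `r = 0`, theorem `Pool.Agent.Helper8.T3.hUnb3`; determinant not zero, so independent);
upper bounds `V_bound`, `W_bound` from `dec`, `bas`, `ub`; if `G1` is not constant the dimension of `V m` is smaller than `DDg dd m`. -/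
def StNEXT : Prop := Unb3 → NexT

/-- The content of EVUT. -/
def EvUT : Prop := ∀ (R : Type) (_ : AddCommGroup R) (D n : ℕ) (G : ℤ → ℤ → R), D ≠ 0 →
  jacobiSym 3 D = -1 → Sym3 0 n G → Sym3 0 (n + 1) (act 3 0 0 1 G) ∧
    ∀ i j : ℕ, evTb D 1 (act 3 0 0 1 G) i j = -evTb D 1 G i j

/-- EVUT. `u` maps symbols of level `3^n` to level `3^(n+1)`, commutes with `T_2`, `T_7` away from the origin, and `eXb D 1 (u H) = -eXb D 1 H`: `∑_a χ(a) (H(3a, D) - H(3,0))`, `H(3,0) = H(1,0)` (`Homog`), `H(p + D, D) = H(p, D)` (translation), `a ↦ 3a` modulo `D` is a bijection, `χ(3a) = -χ(a)`. Model: Pool/Agent/Helper90/WK3/M_EvU3.lean. -/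
def StEVUT : Prop := S3Hk → S3HkS → EvUT

/-- The content of KST. -/
def KsT : Prop := ∀ (D : ℕ) (s : ℤ) (dd : ℕ → ℕ), Hf D s dd → ∀ (m : ℕ) (G : ℤ → ℤ → ℂ), 3 ≤ m →
  Sym3 0 m G → EqC (act 0 (-1) (3 ^ m) 0 G) (-(kw s m • G)) → EqC (act (-1) 0 0 1 G) (s • G) →
  evT D G = 0 →
  ∃ G' ψ : ℤ → ℤ → ℂ, Sym3 0 (m - 1) G' ∧ Sym3 0 (m - 1) ψ ∧
    EqC (act 0 (-1) (3 ^ (m - 1)) 0 G') (-(kw s (m - 1) • G')) ∧
    EqC (act (-1) 0 0 1 G') (s • G') ∧ evT D G' = 0 ∧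
    EqC G (G' + (-act 3 0 0 1 ψ - ψ))

/-- KST. Proof, with `κ = kw s m`, `κ' = kw s (m-1) = -κ`, `κ² = 1` (model: Pool/Agent/Helper76/WK3/M_Ks3.lean, the case `κ = κ' = 1`, `u ψ - ψ`). `t`, `t2`, `σ`, `σ2`, `A`, `B`, `C`, `E` as there: `G = A + C + E`, `E` is killed by the traces, `W E ≈ -κ E`, `* E ≈ s E`: `E` is a `NewSym3S m κ s`. `C` and `W A` have level `3^(m-1)`;
`evT A = -κ evT (W A)` (`sgn`), so `0 = evT G = evT (C - κ W A) + evT E` and `E ≈ 0` by NEXT. `ω = (C - κ W A)/2` has level `3^(m-1)`, `* ω ≈ s ω`, `ω - κ W ω ≈ ((A + C) - κ W (A + C))/2 ≈ G`, `W ω = u (W' ω)` exactly. Take `ψ = -κ' W' ω`, `G' = ω - κ' W' ω`: `G ≈ ω + κ' u W' ω = G' + (-u ψ - ψ)`. `W'` normalises level `3^(m-1)`, `W' W' ω ≈ ω`, so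
`W' G' ≈ -κ' G'`; `* G' ≈ s G'`; `evT G' = evT G - evT (-u ψ - ψ) = 0` by EVUT (`evT D` is `evTb D 1`: `eXb D 1 = eX D` up to `1 * a = a`). -/
def StKST : Prop := S3Nrm → S3Ev → S3Lvl → S3Com → NexT → EvUT → KsT

/-- The content of KKT. -/
def KkT : Prop := ∀ (D : ℕ) (s : ℤ) (dd : ℕ → ℕ), Hf D s dd → ∀ (m : ℕ) (G : ℤ → ℤ → ℂ), 3 ≤ m →
  Sym3 0 m G → EqC (act 0 (-1) (3 ^ m) 0 G) (-(kw s m • G)) → EqC (act (-1) 0 0 1 G) (s • G) →
  evT D G = 0 → ∃ ψ : ℤ → ℤ → ℂ, Sym3 0 (m - 1) ψ ∧ EqC (-act 3 0 0 1 ψ - ψ) G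

/-- KKT. Induction on `m` with KST. `m = 3`: `G'` has level 9: `b9`: `G' ≈ -u ψ' - ψ'` with `ψ'` of level 3, so of level 9. `m ≥ 4`: `G' ≈ -u ψ' - ψ'` with `ψ'` of level `3^(m-2)`, so of level `3^(m-1)`. Model: Pool/Agent/Helper66/WK3/M_K3.lean. -/
def StKKT : Prop := KsT → KkT

/-- The content of CRMT. -/
def CrmT : Prop := ∀ (D : ℕ) (s : ℤ) (dd : ℕ → ℕ), Hf D s dd →
  ∀ (m M : ℕ) (g : ℤ → ℤ → ZMod (3 ^ M)), 3 ≤ m → Sym3 0 m g →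
  (∀ i j : ℕ, evTb D 1 g i j = 0) → ∃ (d : ℤ) (G : ℤ → ℤ → ℤ), ¬ 3 ∣ d ∧ Sym3 0 m G ∧
    (∀ i j : ℕ, evTb D 1 G i j = 0) ∧ EqC (fun p q => ((G p q : ℤ) : ZMod (3 ^ M))) (d • g)

/-- CRMT. Cramer. Model: Pool/Agent/Helper69/WK3/M_Crm3.lean. The complexification of an integral symbol has `evT D = evTb D 1` (`Unb3` with `r = 0`); `evTb` commutes with reduction (model: `Lif3`, last part; `D ≠ 0`). -/
def StCRMT : Prop := Unb3 → DimT → Lft3 → CrmT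

/-- The content of INTT. -/
def IntT : Prop := ∀ (m : ℕ) (ψ : ℤ → ℤ → ℂ) (G : ℤ → ℤ → ℤ), Sym3 0 m ψ →
  EqC (-act 3 0 0 1 ψ - ψ) (fun p q => ((G p q : ℤ) : ℂ)) →
  ∃ ψ' : ℤ → ℤ → ℤ, Sym3 0 m ψ' ∧ EqC (-act 3 0 0 1 ψ' - ψ') G

/-- INTT. Integrality. Proof as Pool/Agent/Helper37/WK3/M_Int3.lean: `ψ - ψ(1,0)` with values in `ℂ ⧸ (Int.castAddHom ℂ).range` satisfies `u ψ ≈ -ψ`, so it is `u²`-invariant: `u² = act 9 0 0 1`, UIP for `9` (`SymP 9 0 m` from `Sym3 0 m`: `9^m ∣ c` implies `3^m ∣ c`); so it is zero away from the origin; integers `ψ' p q`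
with `ψ p q - ψ 1 0 = ψ' p q`; the constants in `EqC` are integers (evaluate at `(1, 0)`). -/
def StINTT : Prop := UIp → IntT

/-- The content of TAT3. -/
def TaT : Prop := ∀ (D : ℕ) (s : ℤ) (dd : ℕ → ℕ), Hf D s dd →
  ∀ (m M : ℕ) (g : ℤ → ℤ → ZMod (3 ^ M)), 3 ≤ m → Sym3 0 m g →
  EqC (act 0 (-1) (3 ^ m) 0 g) (-(kw s m • g)) → EqC (act (-1) 0 0 1 g) (s • g) →
  (∀ i j : ℕ, evTb D 1 g i j = 0) →
  ∃ ψ : ℤ → ℤ → ZMod (3 ^ M), Sym3 0 (m - 1) ψ ∧ EqC (-act 3 0 0 1 ψ - ψ) ((4 : ℤ) • g)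

/-- TAT3. Proof as Pool/Agent/Helper43/WK3/M_TA3.lean: `d`, `G1` from CRMT. `G2 = H + s * H`, `H = G1 - κ W G1` (integral; `κ = kw s m`). Its complexification is a symbol (NRM) with `W G2 ≈ -κ G2`, `* G2 ≈ s G2` (COM) and `evT D G2 = 0` (`sgn`; `evT D = evTb D 1` by `Unb3` with `r = 0`). By KKT and INTT there is an integral
`ψ1` of level `3^(m-1)` with `-u ψ1 - ψ1 ≈ G2`. Modulo `3^M`: `G2 ≡ d (g - κ W g + s * (g - κ W g)) ≈ 4 d g` up to constants. Multiply by an integer `d'` with `d d' ≡ 1` modulo `3^M`. -/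
def StTAT3 : Prop := S3Nrm → S3Com → Unb3 → CrmT → KkT → IntT → TaT

/-- WDT. The interface. Proof: `Wzt 3 D 1 g` (all words) gives `evTb D 1 g i j = 0` (`Bo` is `T_7 + 1 - T_2²`; model Pool/Agent/Helper78/WK3/M_Ta3.lean); `SymP 3 r s` is `Sym3 r s` (`symP_three` there); `jacobiSym (-1) D * jacobiSym 3 D ^ m = kw s m` by `cm`, `c3`. -/
def StWDT : Prop := TaT → ∀ (D : ℕ) (s : ℤ) (dd : ℕ → ℕ), Hf D s dd → TAt 3 D

end Pool.Agent.Helper14.TK
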