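import Pool.Agent.Helper10.CV.M_N1
import Pool.Agent.Helper10.W3.M_Tre
import Pool.Agent.Helper10.W3.M_Trq
import Pool.Agent.Helper11.TA.M_WDT
import Pool.Agent.Helper14.T3.M_Dr1
import Pool.Agent.Helper14.TK.StA
import Pool.Agent.Helper15.TA.M_DIMT
import Pool.Agent.Helper16.W3.M_HkW
import Pool.Agent.Helper16.W3.M_SubA
import Pool.Agent.Helper22.W3.M_Ev
import Pool.Agent.Helper24.W3.M_Exp
import Pool.Agent.Helper25.TA.M_KST
import Pool.Agent.Helper25.W3.M_SubB
import Pool.Agent.Helper26.T3.M_Sedge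
import Pool.Agent.Helper29.T3.M_Lif3
import Pool.Agent.Helper29.W3.M_HkT
import Pool.Agent.Helper29.W3.M_Low0
import Pool.Agent.Helper32.W3.M_Uni
import Pool.Agent.Helper32.WK3.M_Lft3
import Pool.Agent.Helper33.T3.M_Neg3
import Pool.Agent.Helper34.T3.M_Edgi
import Pool.Agent.Helper34.TA.M_NEXT
import Pool.Agent.Helper36.T3.M_Farp
import Pool.Agent.Helper36.TA.M_CRMT
import Pool.Agent.Helper36.W3.M_Edg
import Pool.Agent.Helper36.W3.M_Hk2
import Pool.Agent.Helper37.W3.M_Lw1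
import Pool.Agent.Helper38.CV.M_Far
import Pool.Agent.Helper43.W3.M_Hk7_0
import Pool.Agent.Helper47.W3.M_Hk7_1
import Pool.Agent.Helper47.W3.M_Hk7_2
import Pool.Agent.Helper47.W3.M_Nrm
import Pool.Agent.Helper53.T3.M_Cnt3
import Pool.Agent.Helper53.W3.M_HkS
import Pool.Agent.Helper55.CV.M_Fex
import Pool.Agent.Helper55.T3.M_Sgn3
import Pool.Agent.Helper55.T3.M_Tri3
import Pool.Agent.Helper6.W3.M_Nf
import Pool.Agent.Helper61.T3.M_Bast3
import Pool.Agent.Helper62.T3.M_X3l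
import Pool.Agent.Helper62.W3.M_Led
import Pool.Agent.Helper63.W3.M_Rel
import Pool.Agent.Helper65.TA.M_INTT
import Pool.Agent.Helper66.T3.M_Chs
import Pool.Agent.Helper66.T3.M_RmapS3
import Pool.Agent.Helper67.T3.M_DimFS3
import Pool.Agent.Helper69.T3.M_Eedge
import Pool.Agent.Helper69.W3.M_HkF
import Pool.Agent.Helper7.T3.M_E1S3
import Pool.Agent.Helper7.T3.M_LB3of
import Pool.Agent.Helper7.TA.M_KKT
import Pool.Agent.Helper7.W3.M_Hk
import Pool.Agent.Helper7.W3.M_Ld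
import Pool.Agent.Helper7.W3.M_PlU
import Pool.Agent.Helper71.T3.M_Dsb
import Pool.Agent.Helper73.T3.M_O1S3
import Pool.Agent.Helper76.T3.M_Itr3
import Pool.Agent.Helper76.T3.M_UBT3of
import Pool.Agent.Helper77.TA.M_TAT3
import Pool.Agent.Helper78.W3.M_Cert
import Pool.Agent.Helper78.W3.M_Ex
import Pool.Agent.Helper78.W3.M_Lifp
import Pool.Agent.Helper78.W3.M_Trm
import Pool.Agent.Helper78.WK3.M_Lfm3
import Pool.Agent.Helper8.T3.M_Unb3
import Pool.Agent.Helper8.TA.M_EVUT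
import Pool.Agent.Helper82.WK.M_UIp
import Pool.Agent.Helper83.W3.M_HkB
import Pool.Agent.Helper84.T3.M_Dect3
import Pool.Agent.Helper86.T3.M_KerOS3
import Pool.Agent.Helper86.T3.M_Tree3
import Pool.Agent.Helper86.W3.M_Prd
import Pool.Agent.Helper86.W3.M_Sur
import Pool.Agent.Helper88.T3.M_CoreT3of
import Pool.Agent.Helper89.T3.M_BalS3
import Pool.Agent.Helper9.T3.M_Dsr
import Pool.Agent.Helper9.W3.M_Com
import Pool.Agent.Helper9.W3.M_Lvl
import Pool.Agent.Helper92.T3.M_DimES3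
import Pool.Agent.Helper94.T3.M_DimOS3
import Pool.Agent.Helper98.W3.M_PlA
import Pool.Agent.Helper99.W3.M_Bb

/-!
# Project T3K, part A: Theorem A for the twisted path
-/

set_option autoImplicit false

namespace Pool.Agent.Helper14.TK

open Pool.Agent.Helper14.CV Pool.Agent.Helper14.W3 Pool.Agent.Helper78.W3
open Pool.Agent.Helper14.T3 Pool.Agent.Helper28.T3E

/-- Theorem A for one half. -/
theorem hTa {D : ℕ} {s : ℤ} {dd : ℕ → ℕ} (h : Hf D s dd) : Pool.Agent.Helper76.TG.TAt 3 D := by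
  have hk := Pool.Agent.Helper7.W3.hHk Pool.Agent.Helper10.CV.hN1
  have nrm := Pool.Agent.Helper47.W3.hNrm
  have hkS := Pool.Agent.Helper53.W3.hHkS hk
  have hkW := Pool.Agent.Helper16.W3.hHkW hk hkS
  have hkT := Pool.Agent.Helper29.W3.hHkT hk hkS
  have hev := Pool.Agent.Helper22.W3.hEv hkS hkW hkT nrm
  have com := Pool.Agent.Helper9.W3.hCom
  have lvl := Pool.Agent.Helper9.W3.hLvl nrm
  have far := Pool.Agent.Helper38.CV.hFar
  have plA := Pool.Agent.Helper98.W3.hPlA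
  have plU := Pool.Agent.Helper7.W3.hPlU
  have edg := Pool.Agent.Helper36.W3.hEdg plA plU
  have trm := Pool.Agent.Helper78.W3.hTrm
  have tre := Pool.Agent.Helper10.W3.hTre plA edg
  have rel := Pool.Agent.Helper63.W3.hRel tre
  have ex := Pool.Agent.Helper78.W3.ExM.hEx trm plA Pool.Agent.Helper55.CV.hFex far
  have uni := Pool.Agent.Helper32.W3.hUni tre edg far
  have unb := Pool.Agent.Helper8.T3.hUnb3
  have lft := Pool.Agent.Helper32.WK3.hLft3 rel ex uni Pool.Agent.Helper78.WK3.LfmM.hLfm3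
  have nex := Pool.Agent.Helper34.TA.hNEXT unb
  have evu := Pool.Agent.Helper8.TA.hEVUT hk hkS
  have ks := Pool.Agent.Helper25.TA.hKST nrm hev lvl com nex evu
  have kk := Pool.Agent.Helper7.TA.hKKT ks
  have crm := Pool.Agent.Helper36.TA.hCRMT unb Pool.Agent.Helper15.TA.hDIMT lft
  have int := Pool.Agent.Helper65.TA.hINTT (Pool.Agent.Helper82.WK.hUIp far)
  exact Pool.Agent.Helper11.TA.hWDT (Pool.Agent.Helper77.TA.hTAT3 nrm com unb crm kk int) D s dd h

end Pool.Agent.Helper14.TK
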