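import Pool.Agent.Helper14.TK.M_Hf
import Pool.Agent.Helper14.TK.M_Ta

/-!
# Project T3K, part A: Theorem A for the twisted path, without hypotheses
-/

set_option autoImplicit false

namespace Pool.Agent.Helper14.TK

open Pool.Agent.Helper14.T3 Pool.Agent.Helper28.T3E

/-- Theorem A, odd characters (`D = 7` modulo `12`, class number of discriminant `-D` prime to `3`). -/
theorem taO {D : ℕ} (h : Okt D) : Pool.Agent.Helper76.TG.TAt 3 D := hTa (hodd h)

/-- Theorem A, even characters (`D = 5` modulo `12`, class number of discriminant `-3D` prime to `3`). -/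
theorem taE {D : ℕ} (h : OkE D) : Pool.Agent.Helper76.TG.TAt 3 D := hTa (heven h)

end Pool.Agent.Helper14.TK
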