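import Pool.Agent.Helper1.TA.M_B9O
import Pool.Agent.Helper10.CV.M_N1
import Pool.Agent.Helper10.W3.M_P2
import Pool.Agent.Helper10.W3.M_Tre
import Pool.Agent.Helper10.W3.M_Trq
import Pool.Agent.Helper14.T3.M_Alg
import Pool.Agent.Helper14.T3.M_Dr1
import Pool.Agent.Helper14.TK.StA
import Pool.Agent.Helper16.T3E.M_DECTE
import Pool.Agent.Helper16.W3.M_HkW
import Pool.Agent.Helper16.W3.M_SubA
import Pool.Agent.Helper2.T3E.M_LBEOF
import Pool.Agent.Helper2.T3E.M_SGNE
import Pool.Agent.Helper2.W3.M_CoreOf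
import Pool.Agent.Helper22.W3.M_Ev
import Pool.Agent.Helper22.W3.M_Tri
import Pool.Agent.Helper24.W3.M_Exp
import Pool.Agent.Helper24.W3.M_UBof
import Pool.Agent.Helper25.T3E.M_CHS
import Pool.Agent.Helper25.W3.M_KerO
import Pool.Agent.Helper25.W3.M_SubB
import Pool.Agent.Helper26.T3.M_Sedge
import Pool.Agent.Helper28.T3E.Full
import Pool.Agent.Helper28.W3.M_E1
import Pool.Agent.Helper29.T3.M_Lif3
import Pool.Agent.Helper29.TA.M_BASE
import Pool.Agent.Helper29.W3.M_HkT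
import Pool.Agent.Helper29.W3.M_Low0
import Pool.Agent.Helper32.W3.M_Uni
import Pool.Agent.Helper33.T3.M_Neg3
import Pool.Agent.Helper34.T3.M_Edgi
import Pool.Agent.Helper34.T3E.M_ITRE
import Pool.Agent.Helper34.W3.M_DimE
import Pool.Agent.Helper34.W3.M_Unb
import Pool.Agent.Helper36.T3.M_Farp
import Pool.Agent.Helper36.W3.M_Edg
import Pool.Agent.Helper36.W3.M_Hk2
import Pool.Agent.Helper36.W3.M_N3
import Pool.Agent.Helper37.W3.M_Lw1
import Pool.Agent.Helper37.W3.M_Rmap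
import Pool.Agent.Helper38.CV.M_Far
import Pool.Agent.Helper42.T3E.M_QUA
import Pool.Agent.Helper43.W3.M_Hk7_0
import Pool.Agent.Helper45.W3.M_N4
import Pool.Agent.Helper47.W3.M_Hk7_1
import Pool.Agent.Helper47.W3.M_Hk7_2
import Pool.Agent.Helper47.W3.M_Nrm
import Pool.Agent.Helper53.T3.M_Cnt3
import Pool.Agent.Helper53.T3E.M_CNTE
import Pool.Agent.Helper53.W3.M_HkS
import Pool.Agent.Helper55.CV.M_Fex
import Pool.Agent.Helper55.T3.M_Sgn3
import Pool.Agent.Helper55.T3.M_Tri3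
import Pool.Agent.Helper6.T3E.M_RB
import Pool.Agent.Helper6.W3.M_Nf
import Pool.Agent.Helper60.T3E.M_IND
import Pool.Agent.Helper60.W3.M_LBof
import Pool.Agent.Helper61.T3.M_Bast3
import Pool.Agent.Helper61.W3.M_P5
import Pool.Agent.Helper62.T3.M_X3l
import Pool.Agent.Helper62.W3.M_Led
import Pool.Agent.Helper63.T3E.M_UBEev
import Pool.Agent.Helper63.W3.M_Rel
import Pool.Agent.Helper66.T3.M_Chs
import Pool.Agent.Helper66.T3.M_RmapS3
import Pool.Agent.Helper66.W3.M_Lif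
import Pool.Agent.Helper67.T3.M_DimFS3
import Pool.Agent.Helper67.W3.M_N2
import Pool.Agent.Helper67.W3.M_O1
import Pool.Agent.Helper69.T3.M_Eedge
import Pool.Agent.Helper69.W3.M_DimO
import Pool.Agent.Helper69.W3.M_HkF
import Pool.Agent.Helper7.T3.M_E1S3
import Pool.Agent.Helper7.T3.M_LB3of
import Pool.Agent.Helper7.T3E.M_LIFE
import Pool.Agent.Helper7.W3.M_Hk
import Pool.Agent.Helper7.W3.M_Ld
import Pool.Agent.Helper7.W3.M_PlU
import Pool.Agent.Helper71.T3.M_Dsb
import Pool.Agent.Helper71.T3E.M_UNBE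
import Pool.Agent.Helper71.TA.M_BASO
import Pool.Agent.Helper71.W3.M_DimF
import Pool.Agent.Helper71.W3.M_Final
import Pool.Agent.Helper72.W3.M_B3a
import Pool.Agent.Helper72.W3.M_Cnt
import Pool.Agent.Helper73.T3.M_O1S3
import Pool.Agent.Helper74.T3E.M_BASTE
import Pool.Agent.Helper76.T3.M_Itr3
import Pool.Agent.Helper76.T3.M_UBT3of
import Pool.Agent.Helper76.W3.M_Itr
import Pool.Agent.Helper78.W3.M_Cert
import Pool.Agent.Helper78.W3.M_Ex
import Pool.Agent.Helper78.W3.M_Lifp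
import Pool.Agent.Helper78.W3.M_Trm
import Pool.Agent.Helper8.T3.M_Unb3
import Pool.Agent.Helper83.W3.M_HkB
import Pool.Agent.Helper84.T3.M_Dect3
import Pool.Agent.Helper84.T3E.M_COREOFE
import Pool.Agent.Helper84.T3E.M_HOM
import Pool.Agent.Helper86.T3.M_KerOS3
import Pool.Agent.Helper86.T3.M_Tree3
import Pool.Agent.Helper86.W3.M_Bal
import Pool.Agent.Helper86.W3.M_P4
import Pool.Agent.Helper86.W3.M_Prd
import Pool.Agent.Helper86.W3.M_Sur
import Pool.Agent.Helper87.T3E.M_X2E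
import Pool.Agent.Helper88.T3.M_CoreT3of
import Pool.Agent.Helper89.T3.M_BalS3
import Pool.Agent.Helper9.T3.M_Dsr
import Pool.Agent.Helper9.W3.M_Com
import Pool.Agent.Helper9.W3.M_Lvl
import Pool.Agent.Helper90.W3.M_B3b
import Pool.Agent.Helper92.T3.M_DimES3
import Pool.Agent.Helper92.T3E.M_TRIE
import Pool.Agent.Helper94.T3.M_DimOS3
import Pool.Agent.Helper94.TA.M_B9E
import Pool.Agent.Helper94.W3.M_A3T
import Pool.Agent.Helper96.T3E.M_CFM
import Pool.Agent.Helper98.W3.M_PlA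
import Pool.Agent.Helper99.T3E.M_RA
import Pool.Agent.Helper99.W3.M_Bb

/-!
# Project T3K, part A: the two halves
-/

set_option autoImplicit false

namespace Pool.Agent.Helper14.TK

open Pool.Agent.Helper14.CV Pool.Agent.Helper14.W3 Pool.Agent.Helper78.W3
open Pool.Agent.Helper14.T3 Pool.Agent.Helper28.T3E

private theorem chi_three {D : ℕ} (h : D % 12 = 7) : jacobiSym 3 D = -1 := by
  have h1 : jacobiSym ((3 : ℕ) : ℤ) D = -jacobiSym ((D : ℕ) : ℤ) 3 :=
    jacobiSym.quadratic_reciprocity_three_mod_four (by norm_num) (by omega)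
  have h2 : jacobiSym ((D : ℕ) : ℤ) 3 = 1 := by
    rw [jacobiSym.mod_left]
    have : ((D : ℕ) : ℤ) % ((3 : ℕ) : ℤ) = 1 := by omega
    rw [this]
    exact jacobiSym.one_left 3
  rw [h2] at h1
  exact_mod_cast h1

private theorem chi_neg {D : ℕ} (h : D % 4 = 3) : jacobiSym (-1) D = -1 := by
  have ho : Odd D := Nat.odd_iff.2 (by omega)
  rw [jacobiSym.at_neg_one ho]
  exact ZMod.χ₄_nat_three_mod_four h

/-- The odd half. -/
theorem hodd {D : ℕ} (hD : Okt D) : Hf D (-1) dt3 := by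
  have n1 := Pool.Agent.Helper10.CV.hN1
  have far := Pool.Agent.Helper38.CV.hFar
  have hk := Pool.Agent.Helper7.W3.hHk n1
  have plA := Pool.Agent.Helper98.W3.hPlA
  have plU := Pool.Agent.Helper7.W3.hPlU
  have edg := Pool.Agent.Helper36.W3.hEdg plA plU
  have trm := Pool.Agent.Helper78.W3.hTrm
  have tre := Pool.Agent.Helper10.W3.hTre plA edg
  have rel := Pool.Agent.Helper63.W3.hRel tre
  have ex := Pool.Agent.Helper78.W3.ExM.hEx trm plA Pool.Agent.Helper55.CV.hFex far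
  have uni := Pool.Agent.Helper32.W3.hUni tre edg far
  have hkB := Pool.Agent.Helper83.W3.hHkB hk
  have hkF := Pool.Agent.Helper69.W3.hHkF hkB plA edg
  have hk2 := Pool.Agent.Helper36.W3.hHk2 hkF tre trm
  have hk7 : ∀ i, S3Hk7 i := by
    intro i
    fin_cases i
    · exact Pool.Agent.Helper43.W3.hHk7_0 hkF tre trm
    · exact Pool.Agent.Helper47.W3.hHk7_1 hkF tre trm
    · exact Pool.Agent.Helper47.W3.R2.hHk7_2 hkF tre trm
  have low0 := Pool.Agent.Helper29.W3.hLow0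
  have prd := Pool.Agent.Helper86.W3.hPrd low0
  have subA := Pool.Agent.Helper16.W3.hSubA low0 prd
  have subB := Pool.Agent.Helper25.W3.hSubB low0 prd
  have nf := Pool.Agent.Helper6.W3.hNf low0 subA subB
  have exp := Pool.Agent.Helper24.W3.hExp low0 nf
  have lw1 := Pool.Agent.Helper37.W3.hLw1 low0 nf exp
  have ld := Pool.Agent.Helper7.W3.hLd trm low0 nf exp lw1 Pool.Agent.Helper78.W3.hCert
  have bb := Pool.Agent.Helper99.W3.hBb low0
  have sur := Pool.Agent.Helper86.W3.hSur low0 lw1 bb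
  have led := Pool.Agent.Helper62.W3.hLed low0 lw1 bb sur
  have dsb := Pool.Agent.Helper71.T3.hDsb
  have edgi := Pool.Agent.Helper34.T3.hEdgi dsb (Pool.Agent.Helper14.T3.hDr1 dsb Pool.Agent.Helper9.T3.hDsr)
  have eed := Pool.Agent.Helper69.T3.hEedge (Pool.Agent.Helper26.T3.hSedge edgi)
  have neg := Pool.Agent.Helper33.T3.hNeg3 low0 bb rel plA edg
  have tree := Pool.Agent.Helper86.T3.hTree3 eed Pool.Agent.Helper36.T3.hFarp plA edg
  have x3 := Pool.Agent.Helper62.T3.hX3l neg tree Pool.Agent.Helper66.T3.hChs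
  have itr := Pool.Agent.Helper76.T3.hItr3 x3 rel hkB hk2 hk7 trm low0 lw1 ld
  have tri := Pool.Agent.Helper55.T3.hTri3 low0 bb led ex itr
  have lif := Pool.Agent.Helper29.T3.hLif3 rel (Pool.Agent.Helper78.W3.LifpM.hLifp trm) ex uni
  have hk' := Pool.Agent.Helper7.W3.hHk Pool.Agent.Helper10.CV.hN1
  have nrm := Pool.Agent.Helper47.W3.hNrm
  have hkS := Pool.Agent.Helper53.W3.hHkS hk'
  have ew : ∀ n : ℕ, w3 n = kw (-1) n := by
    intro n
    unfold w3 kw
    ring
  obtain ⟨-, h12, -⟩ := id hD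
  refine ⟨by omega, Or.inr rfl, chi_three h12, chi_neg (by omega), ⟨rfl, rfl, rfl⟩, ?_, ?_, ?_, ?_, ?_, ?_⟩
  · intro n G hn hG
    obtain ⟨h1, h2⟩ := sgn3 D n G (by omega) (by omega) hn hG
    refine ⟨?_, ?_⟩
    · rw [h1, chi_three h12, ← neg_smul]
      congr 1
      unfold kw
      ring
    · rw [h2, neg_smul, one_smul]
  · intro n G hn hG
    have h := Pool.Agent.Helper84.T3.hDect3 sgn3 nrm (Pool.Agent.Helper9.W3.hLvl nrm) Pool.Agent.Helper9.W3.hCom
      D n G h12 hn hG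
    rw [ew] at h
    exact h
  · exact fun G hG => Pool.Agent.Helper61.T3.hBast3 Pool.Agent.Helper38.CV.hFar hkS D G (by omega) (by omega) hG
  · intro n hn
    have h := ubt3 n hn
    rw [ew] at h
    exact h
  · exact Pool.Agent.Helper71.TA.hBASO tri lif Pool.Agent.Helper53.T3.hCnt3 D hD
  · intro K hK hW hs
    have e : -(kw (-1) 2 • K) = K := by
      unfold kw
      norm_num
    rw [e] at hW
    rw [neg_smul, one_smul] at hs
    refine ⟨0, ⟨fun _ _ _ _ _ => rfl, fun _ _ _ _ _ _ _ => EqC.refl _⟩, ?_⟩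
    have h0 : -act 3 0 0 1 (0 : ℤ → ℤ → ℂ) - 0 = 0 := by
      funext p q
      simp [act]
    rw [h0]
    exact (Pool.Agent.Helper1.TA.hB9O K hK hW hs).symm

/-- The even half. -/
theorem heven {D : ℕ} (hD : OkE D) : Hf D 1 de3 := by
  have n1 := Pool.Agent.Helper10.CV.hN1
  have nrm := Pool.Agent.Helper47.W3.hNrm
  have far := Pool.Agent.Helper38.CV.hFar
  have hk := Pool.Agent.Helper7.W3.hHk n1
  have hkS := Pool.Agent.Helper53.W3.hHkS hk
  have hkW := Pool.Agent.Helper16.W3.hHkW hk hkS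
  have hkT := Pool.Agent.Helper29.W3.hHkT hk hkS
  have com := Pool.Agent.Helper9.W3.hCom
  have lvl := Pool.Agent.Helper9.W3.hLvl nrm
  have plA := Pool.Agent.Helper98.W3.hPlA
  have plU := Pool.Agent.Helper7.W3.hPlU
  have edg := Pool.Agent.Helper36.W3.hEdg plA plU
  have trm := Pool.Agent.Helper78.W3.hTrm
  have tre := Pool.Agent.Helper10.W3.hTre plA edg
  have rel := Pool.Agent.Helper63.W3.hRel tre
  have ex := Pool.Agent.Helper78.W3.ExM.hEx trm plA Pool.Agent.Helper55.CV.hFex far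
  have uni := Pool.Agent.Helper32.W3.hUni tre edg far
  have hkB := Pool.Agent.Helper83.W3.hHkB hk
  have hkF := Pool.Agent.Helper69.W3.hHkF hkB plA edg
  have hk2 := Pool.Agent.Helper36.W3.hHk2 hkF tre trm
  have hk7 : ∀ i, S3Hk7 i := by
    intro i
    fin_cases i
    · exact Pool.Agent.Helper43.W3.hHk7_0 hkF tre trm
    · exact Pool.Agent.Helper47.W3.hHk7_1 hkF tre trm
    · exact Pool.Agent.Helper47.W3.R2.hHk7_2 hkF tre trm
  have low0 := Pool.Agent.Helper29.W3.hLow0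
  have prd := Pool.Agent.Helper86.W3.hPrd low0
  have subA := Pool.Agent.Helper16.W3.hSubA low0 prd
  have subB := Pool.Agent.Helper25.W3.hSubB low0 prd
  have nf := Pool.Agent.Helper6.W3.hNf low0 subA subB
  have exp := Pool.Agent.Helper24.W3.hExp low0 nf
  have lw1 := Pool.Agent.Helper37.W3.hLw1 low0 nf exp
  have ld := Pool.Agent.Helper7.W3.hLd trm low0 nf exp lw1 Pool.Agent.Helper78.W3.hCert
  have bb := Pool.Agent.Helper99.W3.hBb low0
  have sur := Pool.Agent.Helper86.W3.hSur low0 lw1 bb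
  have led := Pool.Agent.Helper62.W3.hLed low0 lw1 bb sur
  -- the twisted path
  have ra := Pool.Agent.Helper99.T3E.hRA
  have rb := Pool.Agent.Helper6.T3E.hRB
  have ind := Pool.Agent.Helper60.T3E.hIND
  have hom := Pool.Agent.Helper84.T3E.hHOM ra rb ind
  have qua := Pool.Agent.Helper42.T3E.hQUA
  have chs := Pool.Agent.Helper25.T3E.hCHS
  have cfm := Pool.Agent.Helper96.T3E.hCFM
  have x2 : StX2 := Pool.Agent.Helper87.T3E.hX2E bb edg rel qua ind hom cfm chs
  have it : StIT := Pool.Agent.Helper34.T3E.hITRE x2 rel hkB hk2 hk7 trm low0 lw1 ld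
  have tr : StTR := Pool.Agent.Helper92.T3E.hTRIE it low0 bb led ex
  have li : StLI := Pool.Agent.Helper7.T3E.hLIFE rel (Pool.Agent.Helper78.W3.LifpM.hLifp trm) ex uni
  have sg : StSG := Pool.Agent.Helper2.T3E.hSGNE hkS hkW hkT chs
  have de : StDE := Pool.Agent.Helper16.T3E.hDECTE sg com nrm lvl
  have ba : StBA := Pool.Agent.Helper74.T3E.hBASTE ind hkS chs
  have ew : ∀ n : ℕ, wE n = kw 1 n := by
    intro n
    unfold wE kw
    ring
  obtain ⟨hD1, hsq, h12, -⟩ := id hD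
  obtain ⟨-, -, -, c3, cm⟩ := chs D hD1 hsq h12
  refine ⟨by omega, Or.inl rfl, c3, cm, ⟨rfl, rfl, rfl⟩, ?_, ?_, ?_, ?_, ?_, ?_⟩
  · intro n G hn hG
    obtain ⟨h1, h2⟩ := sg D n G hD hn hG
    rw [ew] at h1
    exact ⟨h1, by rw [h2, one_smul]⟩
  · intro n G hn hG
    have h := de D n G hD hn hG
    rw [ew] at h
    exact h
  · exact fun G hG => ba D G hD hG
  · intro n hn
    have h := ube n hn
    rw [ew] at h
    exact h
  · exact Pool.Agent.Helper29.TA.hBASE tr li Pool.Agent.Helper53.T3E.hCNTE D hD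
  · intro K hK hW hs
    have e : -(kw 1 2 • K) = -K := by
      unfold kw
      norm_num
    rw [e] at hW
    rw [one_smul] at hs
    exact Pool.Agent.Helper94.TA.hB9E K hK hW hs

end Pool.Agent.Helper14.TK
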