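import Pool.Agent.Helper14.TT.M_AllD
import Pool.Agent.Helper28.TK.StK

/-!
# The weight `2` instance of the twisted theorem at `p = 2`, in the conventions of project TK
-/

set_option autoImplicit false

open UpperHalfPlane CongruenceSubgroup
open scoped MatrixGroups

namespace Pool.Agent.Helper14.TK

open Pool.Agent.Helper14.CV (G0)
open Pool.Agent.Helper14.WK
open Pool.Agent.Helper28.TK (RootNumK IsTwK)

private theorem half : (((2 : ℤ) : ℂ) - 1) / 2 = 1 / 2 := by push_cast; norm_num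

private theorem fc_eq {N : ℕ} (f : CuspForm (G0 N) 2) (m : ℕ) :
    fcK f m = Pool.Agent.Helper14.CV.fc f m := rfl

private theorem hecke_iff {N : ℕ} (f : CuspForm (G0 N) 2) (l : ℕ) (t : ℂ) :
    HeckeEigK f l t ↔ Pool.Agent.Helper14.CV.HeckeEig f l t := by
  unfold HeckeEigK Pool.Agent.Helper14.CV.HeckeEig
  have : ((l : ℂ) ^ ((2 : ℤ) - 1)) = (l : ℂ) := by
    rw [show ((2 : ℤ) - 1) = 1 by norm_num, zpow_one]
  simp only [this, fc_eq]

private theorem lam_eq {N : ℕ} [NeZero N] (f : CuspForm (G0 N) 2) (s : ℂ) :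
    LamK (k := 2) two_pos f s = Pool.Agent.Helper14.CV.Lam f s := by
  unfold LamK LanK Pool.Agent.Helper14.CV.Lam Pool.Agent.Helper14.CV.Lan
  rw [half]

private theorem root_iff {N : ℕ} [NeZero N] (w : ℤ) (f : CuspForm (G0 N) 2) :
    RootNumK w (k := 2) two_pos f ↔ Pool.Agent.Helper76.TX.RootNum w f := by
  unfold RootNumK Pool.Agent.Helper76.TX.RootNum
  simp only [lam_eq]
  constructor
  · intro h s h1 h2
    exact h s (by push_cast; linarith) (by push_cast; linarith)
  · intro h s h1 h2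
    push_cast at h1 h2
    exact h s (by linarith) (by linarith)

private theorem tw_iff {N : ℕ} (D : ℕ) (f : CuspForm (G0 N) 2) (L : ℂ → ℂ) :
    IsTwK D f L ↔ Pool.Agent.Helper14.TT.IsTw D f L := by
  unfold IsTwK Pool.Agent.Helper14.TT.IsTw
  simp only [half, fc_eq]

/-- `f` a newform of weight `2` and level `2^n`, `n ≥ 3`, with root number `w`; `D` a prime `3` modulo `8`,
or `7`, or `5 l` with a prime `l = 3` modulo `8`, and `w (2/D)^n = -1`: the twisted `L`-function exists and
its central value is not zero. -/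
theorem w2 (n D : ℕ) (hn : 3 ≤ n) (hD : Pool.Agent.Helper14.TT.Okd D)
    (f : CuspForm (G0 (2 ^ n)) 2) (hf : Pool.Agent.Helper28.LV.IsNewformA 2 n f) (w : ℤ)
    (hw : RootNumK w (k := 2) two_pos f) (h : w * jacobiSym 2 D ^ n = -1) :
    (∃ L : ℂ → ℂ, IsTwK D f L) ∧ ∀ L : ℂ → ℂ, IsTwK D f L → L (1 / 2) ≠ 0 := by
  have hD' : D % 4 = 3 := by
    rcases hD with ⟨_, h⟩ | h | ⟨l, _, hl, rfl⟩ <;> omega
  have h2 : Int.gcd 2 D = 1 := by
    have : Nat.Coprime 2 D := (Nat.coprime_two_left).2 (Nat.odd_iff.2 (by omega))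
    simpa [Int.gcd] using this
  have hc : jacobiSym 2 D = 1 ∨ jacobiSym 2 D = -1 := jacobiSym.eq_one_or_neg_one h2
  have e : w = Pool.Agent.Helper14.TT.wT D n := by
    unfold Pool.Agent.Helper14.TT.wT
    have hs : jacobiSym 2 D ^ n * jacobiSym 2 D ^ n = 1 := by
      rcases hc with h | h
      · rw [h]; simp
      · rw [h, ← mul_pow]; simp
    calc w = w * (jacobiSym 2 D ^ n * jacobiSym 2 D ^ n) := by rw [hs, mul_one]
      _ = w * jacobiSym 2 D ^ n * jacobiSym 2 D ^ n := by ring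
      _ = -(jacobiSym 2 D ^ n) := by rw [h]; ring
  subst e
  have hn0 : n ≠ 0 := by omega
  have hf' : Pool.Agent.Helper14.CV.IsNewform n f := by
    refine ⟨hf.normalised, fun l hl h => (hecke_iff f l _).1 (hf.hecke l hl h), hf.hecke_p hn0, ?_⟩
    intro g hg
    exact hf.new hn0 g fun l hl h => (hecke_iff g l _).2 (hg l hl h)
  have key := Pool.Agent.Helper14.TT.finD D n f hD hn hf' ((root_iff _ f).1 hw)
  simpa only [tw_iff] using key

end Pool.Agent.Helper14.TK
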